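import Pool.Agent.H26.LQ.Defs
import Pool.Agent.H26.MQ.PM
import Pool.Agent.H26.MQ.Semi

/-! Row SH: shifted Poisson integrals. -/

set_option autoImplicit false

open MeasureTheory Set Filter Topology Metric

namespace Pool.Agent.H99.LQ

open Pool.Agent.H26.LQ Pool.Agent.H26.ZQ Pool.Agent.H26.MQ Pool.Agent.H26.ML

private lemma UU_zero (b : ℝ → ℝ) (δ y : ℝ) :
    UU 0 b δ y = Real.pi⁻¹ * ∫ u, poi δ (y - u) * b u := by
  unfold UU
  rw [add_zero]

private lemma poi_add_le {δ : ℝ} (h0 : 0 < δ) (h1 : δ ≤ 1) (u : ℝ) :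
    poi (1 + δ) u ≤ 2 * poi 1 u := by
  unfold poi
  rw [mul_div_assoc', div_le_div_iff₀ (by positivity) (by positivity)]
  nlinarith [sq_nonneg u, mul_nonneg (sub_nonneg.2 h1) (sq_nonneg u)]

theorem pf_sh (hSG : T_SG) : T_SH := by
  intro b δ hδ hδ1 hb hi
  have hπ := Real.pi_pos
  have hcont : Continuous (UU 0 b δ) := by
    have h1 := UU_continuousOn hb hi hδ
    have h2 : Continuous fun y : ℝ => UU δ b 0 y := by
      have h3 : Continuous fun y : ℝ => ((0 : ℝ), y) := by fun_prop
      exact h1.comp_continuous h3 fun y => show (0 : ℝ) ≤ 0 from le_rfl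
    have h4 : UU 0 b δ = fun y : ℝ => UU δ b 0 y := by
      funext y
      unfold UU
      rw [add_zero, zero_add]
    rw [h4]
    exact h2
  have hsg := semigroup_UU hSG hb hi (a := 1) (d := δ) one_pos hδ
  have hint : Integrable (fun u => poi 1 u * UU 0 b δ u) := by
    refine (hsg.1.const_mul Real.pi⁻¹).congr ?_
    filter_upwards with u
    rw [UU_zero]
    ring
  refine ⟨hcont.measurable, hint, ?_, ?_⟩
  · intro x y hx
    have hbm : Measurable fun u : ℝ => b (u + y) := hb.comp (measurable_id.add_const y)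
    have hbi : Integrable fun u : ℝ => poi 1 u * b (u + y) := by
      have h1 := (UU_integrable hb hi one_pos y).comp_add_right y
      refine h1.congr ?_
      filter_upwards with u
      have e : y - (u + y) = -u := by ring
      rw [e, poi_even]
    have h2 := (semigroup_UU hSG hbm hbi (a := x + δ) (d := δ) (by linarith) hδ).2
    have h3 : ∀ w : ℝ, ∫ u, poi δ (w - u) * b (u + y) = ∫ u, poi δ (w + y - u) * b u := by
      intro w
      rw [← integral_add_right_eq_self (fun u : ℝ => poi δ (w + y - u) * b u) y]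
      refine integral_congr_ae ?_
      filter_upwards with u
      have e : w + y - (u + y) = w - u := by ring
      rw [e]
    simp_rw [h3] at h2
    have h4 : ∫ w, poi (x + δ) w * ∫ u, poi δ (w + y - u) * b u =
        ∫ v, poi (x + δ) (y - v) * ∫ u, poi δ (v - u) * b u := by
      rw [← integral_add_right_eq_self
        (fun v : ℝ => poi (x + δ) (y - v) * ∫ u, poi δ (v - u) * b u) y]
      refine integral_congr_ae ?_
      filter_upwards with w
      have e : y - (w + y) = -w := by ring
      rw [e, poi_even]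
    have h5 : ∫ u, poi (x + δ + δ) u * b (u + y) = ∫ u, poi (x + 2 * δ) (y - u) * b u := by
      rw [← integral_add_right_eq_self (fun u : ℝ => poi (x + 2 * δ) (y - u) * b u) y]
      refine integral_congr_ae ?_
      filter_upwards with u
      have e : y - (u + y) = -u := by ring
      have e2 : x + δ + δ = x + 2 * δ := by ring
      rw [e, poi_even, e2]
    rw [h4, h5] at h2
    have h6 : UU δ (UU 0 b δ) x y =
        Real.pi⁻¹ * (Real.pi⁻¹ * ∫ v, poi (x + δ) (y - v) * ∫ u, poi δ (v - u) * b u) := by
      rw [show UU δ (UU 0 b δ) x y =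
        Real.pi⁻¹ * ∫ v, poi (x + δ) (y - v) * UU 0 b δ v from rfl,
        ← integral_const_mul Real.pi⁻¹ (fun v => poi (x + δ) (y - v) *
          ∫ u, poi δ (v - u) * b u)]
      refine congrArg (fun t : ℝ => Real.pi⁻¹ * t) (integral_congr_ae ?_)
      filter_upwards with v
      rw [UU_zero]
      ring
    rw [h6, h2, UU_zero, inv_mul_cancel_left₀ hπ.ne']
  · have hbm : Measurable fun u : ℝ => |b u| := hb.abs
    have hbi : Integrable fun u : ℝ => poi 1 u * |b u| := by
      refine hi.norm.congr ?_
      filter_upwards with u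
      rw [norm_mul, Real.norm_of_nonneg (poi_pos one_pos u).le, Real.norm_eq_abs]
    obtain ⟨h1, h2⟩ := semigroup_UU hSG hbm hbi (a := 1) (d := δ) one_pos hδ
    have h3 : ∀ y : ℝ, |UU 0 b δ y| ≤ Real.pi⁻¹ * ∫ u, poi δ (y - u) * |b u| := by
      intro y
      rw [UU_zero, abs_mul, abs_of_pos (inv_pos.2 hπ)]
      refine mul_le_mul_of_nonneg_left ?_ (inv_pos.2 hπ).le
      refine (abs_integral_le_integral_abs).trans (le_of_eq ?_)
      refine integral_congr_ae ?_
      filter_upwards with u
      rw [abs_mul, abs_of_pos (poi_pos hδ _)]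
    have h4 : ∫ u, poi 1 u * |UU 0 b δ u| ≤
        ∫ y, Real.pi⁻¹ * (poi 1 y * ∫ u, poi δ (y - u) * |b u|) := by
      refine integral_mono_ae ?_ (h1.const_mul _) ?_
      · refine hint.norm.congr ?_
        filter_upwards with u
        rw [norm_mul, Real.norm_of_nonneg (poi_pos one_pos u).le, Real.norm_eq_abs]
      · filter_upwards with y
        have h5 := mul_le_mul_of_nonneg_left (h3 y) (poi_pos one_pos y).le
        calc poi 1 y * |UU 0 b δ y| ≤ poi 1 y * (Real.pi⁻¹ * ∫ u, poi δ (y - u) * |b u|) := h5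
          _ = Real.pi⁻¹ * (poi 1 y * ∫ u, poi δ (y - u) * |b u|) := by ring
    rw [integral_const_mul, h2, inv_mul_cancel_left₀ hπ.ne'] at h4
    refine h4.trans ?_
    rw [← integral_const_mul]
    have h6 : Integrable fun u : ℝ => poi (1 + δ) u * |b u| := by
      have h7 := UU_integrable hbm hbi (a := 1 + δ) (by linarith) 0
      refine h7.congr ?_
      filter_upwards with u
      rw [zero_sub, poi_even]
    refine integral_mono_ae h6 (hbi.const_mul 2) ?_
    filter_upwards with u
    have h8 := mul_le_mul_of_nonneg_right (poi_add_le hδ hδ1 u) (abs_nonneg (b u))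
    calc poi (1 + δ) u * |b u| ≤ 2 * poi 1 u * |b u| := h8
      _ = 2 * (poi 1 u * |b u|) := by ring

end Pool.Agent.H99.LQ
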